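import Pool.Agent.VTP.StmtsA

/-!
# Squad VTP, row LOC: the local identity of the third move

Every product is rewritten as a combination of the values `G z k = q ((n + z + k) / 2)`.
-/

set_option autoImplicit false

namespace Pool.Agent.VTP.H44

open Finset Pool.Agent.ZOL Pool.Agent.VTP

private theorem loc_eq {R : Type} [CommRing R] (q : ℤ → R) (n : ℤ) (G : ℤ → ℤ → R)
    (hG : ∀ z k, G z k = q ((n + z + k) / 2)) (hS : ∀ z k s, q s * G z k = G z (k + 2 * s))
    (sa sb sc : ℤ) (ua ub uc iab iac ibc : Bool) (y ya yb yc y3 : ℤ) :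
    loc q n sa sb sc ua ub uc iab iac ibc y ya yb yc y3 =
      G y (sa + sb + sc) +
      (if ua then (fun k => G ya k - G ya (k + 2 * sa))
        (-sa + (if iab then 0 else sb) + (if iac then 0 else sc)) else 0) +
      (if ub then (fun k => G yb k - G yb (k + 2 * sb))
        (-sb + (if iab then 0 else sa) + (if ibc then 0 else sc)) else 0) +
      (if uc then (fun k => G yc k - G yc (k + 2 * sc))
        (-sc + (if iac then 0 else sa) + (if ibc then 0 else sb)) else 0) +
      (if ua && ub && !iab then (fun k => G y3 k - G y3 (k + 2 * sa) - G y3 (k + 2 * sb)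
        + G y3 (k + 2 * sb + 2 * sa)) (-sa - sb + (if iac || ibc then 0 else sc)) else 0) +
      (if ua && uc && !iac then (fun k => G y3 k - G y3 (k + 2 * sa) - G y3 (k + 2 * sc)
        + G y3 (k + 2 * sc + 2 * sa)) (-sa - sc + (if iab || ibc then 0 else sb)) else 0) +
      (if ub && uc && !ibc then (fun k => G y3 k - G y3 (k + 2 * sb) - G y3 (k + 2 * sc)
        + G y3 (k + 2 * sc + 2 * sb)) (-sb - sc + (if iab || iac then 0 else sa)) else 0) +
      (if ua && ub && uc && !iab && !iac && !ibc then (fun k => G y3 k - G y3 (k + 2 * sa)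
        - G y3 (k + 2 * sb) - G y3 (k + 2 * sc) + G y3 (k + 2 * sb + 2 * sa)
        + G y3 (k + 2 * sc + 2 * sa) + G y3 (k + 2 * sc + 2 * sb)
        - G y3 (k + 2 * sc + 2 * sb + 2 * sa)) (-sa - sb - sc) else 0) := by
  have e1 : ∀ z k s, (1 - q s) * G z k = G z k - G z (k + 2 * s) := by
    intro z k s
    rw [sub_mul, one_mul, hS]
  have e2 : ∀ z k s t, (1 - q s) * (1 - q t) * G z k =
      G z k - G z (k + 2 * s) - G z (k + 2 * t) + G z (k + 2 * t + 2 * s) := by
    intro z k s t
    rw [mul_assoc, e1, mul_sub, e1, e1]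
    ring
  have e3 : ∀ z k s t r, (1 - q s) * (1 - q t) * (1 - q r) * G z k =
      G z k - G z (k + 2 * s) - G z (k + 2 * t) - G z (k + 2 * r) + G z (k + 2 * t + 2 * s)
        + G z (k + 2 * r + 2 * s) + G z (k + 2 * r + 2 * t)
        - G z (k + 2 * r + 2 * t + 2 * s) := by
    intro z k s t r
    rw [mul_assoc, e1, mul_sub, e2, e2]
    ring
  unfold loc
  have f0 : q ((n + y + sa + sb + sc) / 2) = G y (sa + sb + sc) := by
    rw [hG]
    congr 2
    ring
  have fa : ∀ u v : ℤ, q ((n + ya - sa + u + v) / 2) = G ya (-sa + u + v) := by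
    intro u v
    rw [hG]
    congr 2
    ring
  have fb : ∀ u v : ℤ, q ((n + yb - sb + u + v) / 2) = G yb (-sb + u + v) := by
    intro u v
    rw [hG]
    congr 2
    ring
  have fc : ∀ u v : ℤ, q ((n + yc - sc + u + v) / 2) = G yc (-sc + u + v) := by
    intro u v
    rw [hG]
    congr 2
    ring
  have f3 : ∀ s t u : ℤ, q ((n + y3 - s - t + u) / 2) = G y3 (-s - t + u) := by
    intro s t u
    rw [hG]
    congr 2
    ring
  have f4 : q ((n + y3 - sa - sb - sc) / 2) = G y3 (-sa - sb - sc) := by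
    rw [hG]
    congr 2
    ring
  rw [f0, fa, fb, fc, f3, f3, f3, f4, e1, e1, e1, e2, e2, e2, e3]

theorem loc : LocStmt := by
  intro R _ q hq n sa sb sc ua ub uc α β γ y ya yb yc y3 hsb hsa hsc h1 h2 hy3
  obtain ⟨G, hG⟩ : ∃ G : ℤ → ℤ → R, ∀ z k, G z k = q ((n + z + k) / 2) := ⟨_, fun _ _ => rfl⟩
  have hS : ∀ z k s, q s * G z k = G z (k + 2 * s) := by
    intro z k s
    rw [hG, hG, ← hq.2]
    congr 1
    have e1 : n + z + (k + 2 * s) = (n + z + k) + s * 2 := by ring
    rw [e1, Int.add_mul_ediv_right _ _ (by norm_num), add_comm]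
  have hT : ∀ z e k, G (z + e) k = G z (e + k) := by
    intro z e k
    rw [hG, hG]
    congr 2
    ring
  rw [loc_eq q n G hG hS, loc_eq q n G hG hS]
  clear hS hG
  subst hsa hsc hy3
  simp only [hT]
  rcases hsb with rfl | rfl <;> cases α <;> cases β <;> cases γ <;> cases ua <;> cases ub <;>
    cases uc <;> simp [bs] at h1 h2 ⊢ <;> ring

end Pool.Agent.VTP.H44
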