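import Pool.Agent.VTP.StmtsA

/-!
# Squad VTP, row PIM: renaming of the crossings
-/

set_option autoImplicit false

namespace Pool.Agent.VTP.H44

open Finset Pool.Agent.ZOL Pool.Agent.VTP

private theorem ni_image {V : Finset ℕ} {i i' : ℕ → ℕ → Prop} {τ : ℕ → ℕ}
    (hi : ∀ c ∈ V, ∀ d ∈ V, (i' (τ c) (τ d) ↔ i c d)) {S : Finset ℕ} (hS : S ⊆ V) :
    NI i' (S.image τ) ↔ NI i S := by
  constructor
  · intro h c hc d hd hcd
    exact h (τ c) (mem_image_of_mem τ hc) (τ d) (mem_image_of_mem τ hd)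
      ((hi c (hS hc) d (hS hd)).mpr hcd)
  · intro h c' hc' d' hd' hcd
    obtain ⟨c, hc, rfl⟩ := mem_image.mp hc'
    obtain ⟨d, hd, rfl⟩ := mem_image.mp hd'
    exact h c hc d hd ((hi c (hS hc) d (hS hd)).mp hcd)

private theorem nn_image {V : Finset ℕ} {σ σ' s s' : ℕ → ℤ} {i i' : ℕ → ℕ → Prop} {τ : ℕ → ℕ}
    (hτ : Set.InjOn τ (V : Set ℕ)) (hσ : ∀ d ∈ V, σ' (τ d) = σ d)
    (hs : ∀ d ∈ V, s' (τ d) = s d)
    (hi : ∀ c ∈ V, ∀ d ∈ V, (i' (τ c) (τ d) ↔ i c d)) {S : Finset ℕ} (hS : S ⊆ V) :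
    NN (V.image τ) σ' s' i' (S.image τ) = NN V σ s i S := by
  classical
  have hmem : ∀ d ∈ V, (τ d ∈ S.image τ ↔ d ∈ S) := by
    intro d hd
    constructor
    · intro h
      obtain ⟨e, he, heq⟩ := mem_image.mp h
      rw [← hτ (hS he) hd heq]
      exact he
    · exact fun h => mem_image_of_mem τ h
  have hfil : (V.image τ).filter (fun d => d ∉ S.image τ ∧ ∀ c ∈ S.image τ, ¬ i' c d) =
      (V.filter (fun d => d ∉ S ∧ ∀ c ∈ S, ¬ i c d)).image τ := by
    ext x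
    constructor
    · intro hx
      obtain ⟨hx0, h1, h2⟩ := mem_filter.mp hx
      obtain ⟨d, hd, rfl⟩ := mem_image.mp hx0
      refine mem_image_of_mem τ (mem_filter.mpr
        ⟨hd, fun h => h1 ((hmem d hd).mpr h), fun c hc hcd => ?_⟩)
      exact h2 (τ c) (mem_image_of_mem τ hc) ((hi c (hS hc) d hd).mpr hcd)
    · intro hx
      obtain ⟨d, hd, rfl⟩ := mem_image.mp hx
      obtain ⟨h0, h1, h2⟩ := mem_filter.mp hd
      refine mem_filter.mpr
        ⟨mem_image_of_mem τ h0, fun h => h1 ((hmem d h0).mp h), fun c' hc' hcd => ?_⟩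
      obtain ⟨c, hc, rfl⟩ := mem_image.mp hc'
      exact h2 c hc ((hi c (hS hc) d h0).mp hcd)
  have h1 : ∑ d ∈ (V.image τ).filter (fun d => d ∉ S.image τ ∧ ∀ c ∈ S.image τ, ¬ i' c d), σ' d =
      ∑ d ∈ V.filter (fun d => d ∉ S ∧ ∀ c ∈ S, ¬ i c d), σ d := by
    rw [hfil, sum_image (fun x hx y hy h => hτ (filter_subset _ _ hx) (filter_subset _ _ hy) h)]
    exact sum_congr rfl fun d hd => hσ d (filter_subset _ _ hd)
  have h2 : ∑ c ∈ S.image τ, σ' c = ∑ c ∈ S, σ c := by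
    rw [sum_image (fun x hx y hy h => hτ (hS hx) (hS hy) h)]
    exact sum_congr rfl fun d hd => hσ d (hS hd)
  have h3 : ∑ d ∈ V.image τ, s' d = ∑ d ∈ V, s d := by
    rw [sum_image (fun x hx y hy h => hτ hx hy h)]
    exact sum_congr rfl fun d hd => hs d hd
  unfold NN
  rw [h2, h3]
  refine congrArg (fun z => z - _ - _) ?_
  refine Eq.trans (sum_congr ?_ fun _ _ => rfl) (Eq.trans h1 (sum_congr ?_ fun _ _ => rfl))
  · ext x
    simp only [mem_filter]
  · ext x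
    simp only [mem_filter]

theorem pim : PimStmt := by
  classical
  intro V σ σ' s s' i i' τ hτ hσ hs hi
  refine ⟨?_, fun S hS => ⟨ni_image hi hS, nn_image hτ hσ hs hi hS⟩⟩
  intro R _ q
  unfold PP
  symm
  refine sum_bij (fun S _ => S.image τ) ?_ ?_ ?_ ?_
  · intro S hS
    obtain ⟨h1, h2⟩ := mem_filter.mp hS
    rw [mem_powerset] at h1
    exact mem_filter.mpr ⟨mem_powerset.mpr (image_subset_image h1), (ni_image hi h1).mpr h2⟩
  · intro S hS T hT h
    have h1 := mem_powerset.mp (mem_filter.mp hS).1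
    have h2 := mem_powerset.mp (mem_filter.mp hT).1
    have key : ∀ A B : Finset ℕ, A ⊆ V → B ⊆ V → A.image τ = B.image τ → A ⊆ B := by
      intro A B hA hB hAB x hx
      have h3 : τ x ∈ B.image τ := by
        rw [← hAB]
        exact mem_image_of_mem τ hx
      obtain ⟨y, hy, heq⟩ := mem_image.mp h3
      rw [← hτ (hB hy) (hA hx) heq]
      exact hy
    exact Subset.antisymm (key S T h1 h2 h) (key T S h2 h1 h.symm)
  · intro S' hS'
    obtain ⟨h1, h2⟩ := mem_filter.mp hS'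
    rw [mem_powerset] at h1
    obtain ⟨S, hS, hSS⟩ := subset_image_iff.mp h1
    refine ⟨S, mem_filter.mpr ⟨mem_powerset.mpr hS, ?_⟩, hSS⟩
    rw [← hSS] at h2
    exact (ni_image hi hS).mp h2
  · intro S hS
    have h1 := mem_powerset.mp (mem_filter.mp hS).1
    rw [nn_image hτ hσ hs hi h1, prod_image (fun x hx y hy h => hτ (h1 hx) (h1 hy) h)]
    refine congrArg (fun z => z * _) (prod_congr rfl fun c hc => ?_)
    unfold xx
    rw [hσ c (h1 hc), hs c (h1 hc)]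

end Pool.Agent.VTP.H44
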